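import Pool.Agent.Q267.MW.Leg7
import Pool.Agent.Q267.Seven.Sums

/-!
# MP_945b72_nt

The alternating sum of `a(m) = ∑ (-16)^j C(m,j)² C(m-j,j)²` modulo `p²` for `p = x² + 7 y²`.
-/

namespace Pool.Agent.Results.MP_945b72_nt.Full

open Finset

/-- The sequence `a(n) = ∑_{j=0}^n (-16)^j C(n,j)² C(n-j,j)²`. -/
def a (n : ℕ) : ℤ :=
  ∑ j ∈ range (n + 1), (-16 : ℤ) ^ j * (n.choose j : ℤ) ^ 2 * ((n - j).choose j : ℤ) ^ 2

/-- **Q1 of MP_945b72_nt.** -/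
theorem result (p : ℕ) (hp : p.Prime) (h7 : jacobiSym (p : ℤ) 7 = 1) (x y : ℤ)
    (hxy : x ^ 2 + 7 * y ^ 2 = p) :
    ((p : ℤ) ^ 2) ∣ (∑ m ∈ range p, (-1 : ℤ) ^ m * a m) - 4 * x ^ 2 + 2 * p := by
  have : Fact p.Prime := ⟨hp⟩
  have hp2 : p ≠ 2 := by
    rintro rfl
    have h1 : x ^ 2 + 7 * y ^ 2 = 2 := by exact_mod_cast hxy
    have hy : y = 0 := by
      by_contra hy
      have hy' : y ≠ 0 := hy
      have : 0 < y ^ 2 := by positivity
      nlinarith [sq_nonneg x]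
    rw [hy] at h1
    have hx1 : x ≤ 1 := by nlinarith
    have hx2 : -1 ≤ x := by nlinarith
    interval_cases x <;> omega
  have hp7 : p ≠ 7 := by
    rintro rfl
    norm_num at h7
  obtain ⟨m, hm⟩ : ∃ m, p = 2 * m + 1 := hp.eq_two_or_odd'.resolve_left hp2
  have h1 := Pool.Agent.Q267.MW.cubes7 p m hm hp7 x y hxy.symm
  have h2 := Pool.Agent.Q267.Seven.sum_a_mod p m hp hm
  have h3 := dvd_add h1 h2
  have e : ∀ n, Pool.Agent.Q267.Seven.a n = a n := by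
    intro n
    rfl
  simp only [e] at h3
  refine (dvd_of_eq ?_).trans (h3.trans (dvd_of_eq ?_))
  · rfl
  · ring

end Pool.Agent.Results.MP_945b72_nt.Full
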